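import Mathlib

/-!
# No Mathon 8-arc induces the whole group `GL₃(2)` on its Fano plane of conics
-/

set_option autoImplicit false
set_option linter.unusedSectionVars false

namespace Pool.Agent.Results.MP_df3b73_co.NotAllOfGL32

/-- A triple `(α, β, λ)`, standing for the conic `F_{α,β,λ}: α x² + x y + β y² + λ z² = 0`. -/
@[ext] structure Conic (K : Type) where
  al : K
  be : K
  la : K

section Defs

variable {K : Type} [Field K]

/-- The point `⟨v⟩` of `PG(2, q)` lies on the conic `F_{α,β,λ}`. -/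
def Conic.On (F : Conic K) (v : Fin 3 → K) : Prop :=
  F.al * v 0 ^ 2 + v 0 * v 1 + F.be * v 1 ^ 2 + F.la * v 2 ^ 2 = 0

/-- The composition `F ⊕ F'`. -/
def Conic.comp (F F' : Conic K) : Conic K where
  al := (F.al * F.la + F'.al * F'.la) / (F.la + F'.la)
  be := (F.be * F.la + F'.be * F'.la) / (F.la + F'.la)
  la := F.la + F'.la

/-- A closed set of `7` conics `F_{α,β,λ}` with `Tr (α β) = 1` and `λ ≠ 0`. -/
structure IsMathonSet [Algebra (ZMod 2) K] (C : Set (Conic K)) : Prop where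
  card : C.ncard = 7
  trace : ∀ F ∈ C, Algebra.trace (ZMod 2) K (F.al * F.be) = 1
  la_ne : ∀ F ∈ C, F.la ≠ 0
  closed : ∀ F ∈ C, ∀ F' ∈ C, F ≠ F' → F.la ≠ F'.la ∧ F.comp F' ∈ C

/-- An additive bijection `φ` is semilinear. -/
def IsSemilinear (φ : (Fin 3 → K) ≃+ (Fin 3 → K)) : Prop :=
  ∃ σ : K ≃+* K, ∀ (a : K) (v : Fin 3 → K), φ (a • v) = σ a • φ v

/-- The point `⟨v⟩` lies in the union of the conics of `C` and the nucleus `F₀ = (0, 0, 1)`. -/
def InArc (C : Set (Conic K)) (v : Fin 3 → K) : Prop :=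
  (∃ F ∈ C, F.On v) ∨ ∃ t : K, v = t • ![0, 0, 1]

/-- The permutation `π` of the conics is induced by a collineation `φ` that stabilises the arc.
Here `γ` is the collineation that maps the union `C ∪ {F₀}` onto the arc, so that the conics of the
arc are the images `γ(F)`. -/
def Induced (γ : (Fin 3 → K) ≃+ (Fin 3 → K)) (C : Set (Conic K)) (π : Equiv.Perm C) : Prop :=
  ∃ φ : (Fin 3 → K) ≃+ (Fin 3 → K), IsSemilinear φ ∧
    (∀ v, v ≠ 0 → (InArc C (γ.symm v) ↔ InArc C (γ.symm (φ v)))) ∧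
      ∀ F : C, ∀ v, v ≠ 0 → (F.1.On (γ.symm v) ↔ (π F).1.On (γ.symm (φ v)))

/-- `π` is an automorphism of the Fano plane whose points are the conics of `C` and whose lines are
the triples `F, F', F ⊕ F'`. -/
def IsFanoAut (C : Set (Conic K)) (π : Equiv.Perm C) : Prop :=
  ∀ F F' G : C, F ≠ F' → G.1 = F.1.comp F'.1 → (π G).1 = (π F).1.comp (π F').1

end Defs

section Core

variable {K : Type} [Field K] [Finite K] [Algebra (ZMod 2) K]

lemma two_eq : (2 : K) = 0 := by
  have : CharP K 2 := charP_of_injective_algebraMap (algebraMap (ZMod 2) K).injective 2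
  exact CharP.cast_eq_zero K 2

lemma add_self (x : K) : x + x = 0 := by
  rw [← two_mul, two_eq, zero_mul]

lemma exists_sqrt (x : K) : ∃ y : K, y ^ 2 = x := by
  have : CharP K 2 := charP_of_injective_algebraMap (algebraMap (ZMod 2) K).injective 2
  have : Fintype K := Fintype.ofFinite K
  have h2 : ringChar K = 2 := ringChar.eq K 2
  obtain ⟨y, hy⟩ := FiniteField.isSquare_of_char_two h2 x
  exact ⟨y, by rw [hy]; ring⟩

/-- a polynomial of degree four with more than four zeros -/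
lemma quartic (hK : 8 ≤ Nat.card K) (c₀ c₁ c₂ c₃ c₄ : K)
    (h : ∀ x : K, c₄ * x ^ 4 + c₃ * x ^ 3 + c₂ * x ^ 2 + c₁ * x + c₀ = 0) :
    c₀ = 0 ∧ c₁ = 0 ∧ c₂ = 0 ∧ c₃ = 0 ∧ c₄ = 0 := by
  classical
  have : Fintype K := Fintype.ofFinite K
  open Polynomial in
  let p : K[X] := C c₄ * X ^ 4 + C c₃ * X ^ 3 + C c₂ * X ^ 2 + C c₁ * X + C c₀
  have hdeg : p.natDegree ≤ 4 := by
    simp only [p]
    compute_degree
  have hp : p = 0 := by
    apply Polynomial.eq_zero_of_natDegree_lt_card_of_eval_eq_zero' p Finset.univ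
    · intro x _
      simp only [p, Polynomial.eval_add, Polynomial.eval_mul, Polynomial.eval_C,
        Polynomial.eval_pow, Polynomial.eval_X]
      exact h x
    · rw [Finset.card_univ, ← Nat.card_eq_fintype_card]
      omega
  have hc : ∀ n, p.coeff n = 0 := fun n => by rw [hp, Polynomial.coeff_zero]
  have h0 := hc 0
  have h1 := hc 1
  have h2 := hc 2
  have h3 := hc 3
  have h4 := hc 4
  simp [p, Polynomial.coeff_X, Polynomial.coeff_C] at h0 h1 h2 h3 h4
  exact ⟨h0, h1, h2, h3, h4⟩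

/-- the points of a conic determine its equation up to a scalar -/
lemma conic_form (hK : 8 ≤ Nat.card K) (α β l : K) (hl : l ≠ 0) (a b c d e f : K)
    (h : ∀ x y z : K, α * x ^ 2 + x * y + β * y ^ 2 + l * z ^ 2 = 0 →
      a * x ^ 2 + b * y ^ 2 + c * z ^ 2 + d * (x * y) + e * (x * z) + f * (y * z) = 0) :
    e = 0 ∧ f = 0 ∧ l * d = c := by
  have key : ∀ x : K, (l * (e ^ 2 * α) + (l * a + c * α) ^ 2) * x ^ 4 + (l * e ^ 2) * x ^ 3 +
      (l * (e ^ 2 * β + f ^ 2 * α) + (l * d + c) ^ 2) * x ^ 2 + (l * f ^ 2) * x +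
      (l * (f ^ 2 * β) + (l * b + c * β) ^ 2) = 0 := by
    intro x
    obtain ⟨z, hz⟩ := exists_sqrt ((α * x ^ 2 + x * 1 + β * 1 ^ 2) / l)
    have hz' : l * z ^ 2 = α * x ^ 2 + x + β := by
      rw [hz]; field_simp
    have h1 := h x 1 z (by rw [hz']; linear_combination (α * x ^ 2 + x + β) * two_eq (K := K))
    have t2 := two_eq (K := K)
    have h2 : l * ((e * x + f) * z) = (l * a + c * α) * x ^ 2 + (l * b + c * β) +
        (l * d + c) * x := by
      linear_combination l * h1 + c * hz' +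
        (- l * a * x ^ 2 - l * b - l * d * x - c * (l * z ^ 2)) * t2
    have h3 : l ^ 2 * ((e * x + f) ^ 2 * z ^ 2) = ((l * a + c * α) * x ^ 2 + (l * b + c * β) +
        (l * d + c) * x) ^ 2 := by
      rw [← h2]; ring
    have h4 : l * (e * x + f) ^ 2 * (α * x ^ 2 + x + β) = ((l * a + c * α) * x ^ 2 +
        (l * b + c * β) + (l * d + c) * x) ^ 2 := by
      rw [← h3, ← hz']; ring
    set A := l * a + c * α
    set B := l * b + c * β
    set D := l * d + c
    linear_combination h4 + (A ^ 2 * x ^ 4 + D ^ 2 * x ^ 2 + B ^ 2 + A * B * x ^ 2 + A * D * x ^ 3 +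
      B * D * x - l * e * f * x * (α * x ^ 2 + x + β)) * t2
  obtain ⟨h0, h1, h2, h3, h4⟩ := quartic hK _ _ _ _ _ key
  have he : e = 0 := by
    rcases mul_eq_zero.1 h3 with h | h
    · exact absurd h hl
    · exact pow_eq_zero_iff (two_ne_zero) |>.1 h
  have hf : f = 0 := by
    rcases mul_eq_zero.1 h1 with h | h
    · exact absurd h hl
    · exact pow_eq_zero_iff (two_ne_zero) |>.1 h
  refine ⟨he, hf, ?_⟩
  rw [he, hf] at h2
  have h5 : (l * d + c) ^ 2 = 0 := by simpa using h2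
  have h6 : l * d + c = 0 := pow_eq_zero_iff (two_ne_zero) |>.1 h5
  linear_combination h6 - c * two_eq (K := K)

/-- a semilinear map which maps the conic `F` onto the conic `F'` -/
lemma la_eq (hK : 8 ≤ Nat.card K) (φ : (Fin 3 → K) ≃+ (Fin 3 → K)) (σ : K ≃+* K)
    (hσ : ∀ (a : K) (v : Fin 3 → K), φ (a • v) = σ a • φ v) :
    ∃ δ : K, ∀ F F' : Conic K, F.la ≠ 0 → (∀ v, v ≠ 0 → (F.On v ↔ F'.On (φ v))) →
      F'.la = δ * σ F.la := by
  classical
  set m₀ := φ ![1, 0, 0] with hm₀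
  set m₁ := φ ![0, 1, 0] with hm₁
  set m₂ := φ ![0, 0, 1] with hm₂
  have hφ : ∀ x y z : K, φ ![σ.symm x, σ.symm y, σ.symm z] = x • m₀ + y • m₁ + z • m₂ := by
    intro x y z
    have e : (![σ.symm x, σ.symm y, σ.symm z] : Fin 3 → K) = σ.symm x • ![1, 0, 0] +
        σ.symm y • ![0, 1, 0] + σ.symm z • ![0, 0, 1] := by
      ext i
      fin_cases i <;> simp
    rw [e, map_add, map_add, hσ, hσ, hσ]
    simp [hm₀, hm₁, hm₂]
  have hm₂0 : m₂ ≠ 0 := by
    rw [hm₂]
    intro h0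
    have := φ.injective (h0.trans (map_zero φ).symm)
    have h1 := congrFun this 2
    simp at h1
  refine ⟨(m₀ 0 * m₁ 1 + m₀ 1 * m₁ 0) / (m₂ 2) ^ 2, fun F F' hl h => ?_⟩
  -- the quadratic form
  have key : ∀ x y z : K, σ F.al * x ^ 2 + x * y + σ F.be * y ^ 2 + σ F.la * z ^ 2 = 0 →
      F'.On (x • m₀ + y • m₁ + z • m₂) := by
    intro x y z hxyz
    rw [← hφ]
    by_cases h0 : (![σ.symm x, σ.symm y, σ.symm z] : Fin 3 → K) = 0
    · rw [h0, map_zero]
      simp [Conic.On]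
    · rw [← h _ h0]
      unfold Conic.On
      apply σ.injective
      simpa using hxyz
  have t2 := two_eq (K := K)
  have h1 := conic_form hK (σ F.al) (σ F.be) (σ F.la) (by simpa using hl)
    (F'.al * m₀ 0 ^ 2 + m₀ 0 * m₀ 1 + F'.be * m₀ 1 ^ 2 + F'.la * m₀ 2 ^ 2)
    (F'.al * m₁ 0 ^ 2 + m₁ 0 * m₁ 1 + F'.be * m₁ 1 ^ 2 + F'.la * m₁ 2 ^ 2)
    (F'.al * m₂ 0 ^ 2 + m₂ 0 * m₂ 1 + F'.be * m₂ 1 ^ 2 + F'.la * m₂ 2 ^ 2)
    (m₀ 0 * m₁ 1 + m₀ 1 * m₁ 0) (m₀ 0 * m₂ 1 + m₀ 1 * m₂ 0) (m₁ 0 * m₂ 1 + m₁ 1 * m₂ 0)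
    (fun x y z hxyz => by
      have h2 := key x y z hxyz
      unfold Conic.On at h2
      simp only [Pi.add_apply, Pi.smul_apply, smul_eq_mul] at h2
      linear_combination h2 - (x * y * (F'.al * m₀ 0 * m₁ 0 + F'.be * m₀ 1 * m₁ 1 +
        F'.la * m₀ 2 * m₁ 2) + x * z * (F'.al * m₀ 0 * m₂ 0 + F'.be * m₀ 1 * m₂ 1 +
        F'.la * m₀ 2 * m₂ 2) + y * z * (F'.al * m₁ 0 * m₂ 0 + F'.be * m₁ 1 * m₂ 1 +
        F'.la * m₁ 2 * m₂ 2)) * t2)
  obtain ⟨he, hf, hd⟩ := h1
  -- `m₂` is in the radical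
  have hrad : ∀ w : Fin 3 → K, w 0 * m₂ 1 + w 1 * m₂ 0 = 0 := by
    intro w
    obtain ⟨v, rfl⟩ := φ.surjective w
    have e := hφ (σ (v 0)) (σ (v 1)) (σ (v 2))
    have e2 : (![σ.symm (σ (v 0)), σ.symm (σ (v 1)), σ.symm (σ (v 2))] : Fin 3 → K) = v := by
      ext i
      fin_cases i <;> simp
    rw [e2] at e
    rw [e]
    simp only [Pi.add_apply, Pi.smul_apply, smul_eq_mul]
    linear_combination σ (v 0) * he + σ (v 1) * hf + σ (v 2) * m₂ 0 * m₂ 1 * t2
  have h21 : m₂ 1 = 0 := by simpa using hrad ![1, 0, 0]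
  have h20 : m₂ 0 = 0 := by simpa using hrad ![0, 1, 0]
  have h22 : m₂ 2 ≠ 0 := by
    intro h22
    apply hm₂0
    ext i
    fin_cases i
    · exact h20
    · exact h21
    · exact h22
  rw [h20, h21] at hd
  rw [div_mul_eq_mul_div, eq_div_iff (pow_ne_zero 2 h22)]
  linear_combination -hd

/-- field automorphisms of a finite field commute -/
lemma aut_comm (σ τ : K ≃+* K) (x : K) : σ (τ x) = τ (σ x) := by
  have key : ∀ ρ : K ≃+* K, ∃ ρ' : K ≃ₐ[ZMod 2] K, ∀ y, ρ' y = ρ y := fun ρ =>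
    ⟨AlgEquiv.ofRingEquiv (f := ρ) (fun r => by
      have h := RingHom.congr_fun (Subsingleton.elim ((ρ : K →+* K).comp (algebraMap (ZMod 2) K))
        (algebraMap (ZMod 2) K)) r
      exact h), fun y => rfl⟩
  obtain ⟨σ', hσ'⟩ := key σ
  obtain ⟨τ', hτ'⟩ := key τ
  have h1 : σ' * τ' = τ' * σ' := by
    obtain ⟨ρ, hρ⟩ := IsCyclic.exists_generator (α := K ≃ₐ[ZMod 2] K)
    obtain ⟨a, rfl⟩ := Subgroup.mem_zpowers_iff.1 (hρ σ')
    obtain ⟨b, rfl⟩ := Subgroup.mem_zpowers_iff.1 (hρ τ')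
    exact (Commute.refl ρ).zpow_zpow a b
  have h2 := congrArg (fun ρ : K ≃ₐ[ZMod 2] K => ρ x) h1
  change σ' (τ' x) = τ' (σ' x) at h2
  rw [hσ', hτ', hσ', hτ'] at h2
  exact h2

end Core

section Group

variable {K : Type} [Field K] [Finite K] [Algebra (ZMod 2) K] {C : Set (Conic K)}
  (hC : IsMathonSet C)

include hC

lemma la_inj {F F' : Conic K} (hF : F ∈ C) (hF' : F' ∈ C) (h : F.la = F'.la) : F = F' := by
  by_contra hne
  exact (hC.closed F hF F' hF' hne).1 h

/-- the additive group of the `λ` -/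
def grp : Submodule (ZMod 2) K where
  carrier := {x | x = 0 ∨ ∃ F ∈ C, F.la = x}
  zero_mem' := Or.inl rfl
  add_mem' := by
    rintro x y (rfl | ⟨F, hF, rfl⟩) (rfl | ⟨F', hF', rfl⟩)
    · exact Or.inl (by simp)
    · exact Or.inr ⟨F', hF', by simp⟩
    · exact Or.inr ⟨F, hF, by simp⟩
    · by_cases h : F = F'
      · left
        rw [h]
        exact add_self _
      · exact Or.inr ⟨_, (hC.closed F hF F' hF' h).2, rfl⟩
  smul_mem' := by
    intro c x hx
    have hc : ∀ c : ZMod 2, c = 0 ∨ c = 1 := by decide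
    rcases hc c with rfl | rfl
    · rw [zero_smul]; exact Or.inl rfl
    · rw [one_smul]; exact hx

lemma mem_grp {x : K} : x ∈ grp hC ↔ x = 0 ∨ ∃ F ∈ C, F.la = x := Iff.rfl

lemma card_grp : Nat.card (grp hC) = 8 := by
  have h1 : ((grp hC : Submodule (ZMod 2) K) : Set K) = insert 0 (Conic.la '' C) := by
    ext x
    simp only [Set.mem_insert_iff, Set.mem_image]
    exact mem_grp hC
  have h2 : Set.InjOn Conic.la C := fun F hF F' hF' h => la_inj hC hF hF' h
  have h3 : (0 : K) ∉ Conic.la '' C := by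
    rintro ⟨F, hF, h⟩
    exact hC.la_ne F hF h
  change ((grp hC : Submodule (ZMod 2) K) : Set K).ncard = 8
  rw [h1, Set.ncard_insert_of_notMem h3 (Set.toFinite _), h2.ncard_image, hC.card]

lemma finrank_grp : Module.finrank (ZMod 2) (grp hC) = 3 := by
  have h := card_grp hC
  rw [Module.natCard_eq_pow_finrank (K := ZMod 2), Nat.card_zmod] at h
  have : (2 : ℕ) ^ Module.finrank (ZMod 2) (grp hC) = 2 ^ 3 := by rw [h]; norm_num
  exact Nat.pow_right_injective le_rfl this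

lemma card_K : 8 ≤ Nat.card K := by
  rw [← card_grp hC]
  exact Nat.card_le_card_of_injective _ Subtype.val_injective

/-- the permutation of the conics given by a linear automorphism of the group -/
lemma exists_perm (f : grp hC ≃ₗ[ZMod 2] grp hC) : ∃ π : Equiv.Perm C, IsFanoAut C π ∧
    ∀ F : C, ∀ h : F.1.la ∈ grp hC, (π F).1.la = f ⟨F.1.la, h⟩ := by
  classical
  have hmem : ∀ F : C, F.1.la ∈ grp hC := fun F => Or.inr ⟨F, F.2, rfl⟩
  have key : ∀ g : grp hC ≃ₗ[ZMod 2] grp hC, ∀ F : C, ∃ F' : C, F'.1.la = g ⟨F.1.la, hmem F⟩ := by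
    intro g F
    rcases (g ⟨F.1.la, hmem F⟩).2 with h | ⟨F', hF', h⟩
    · exfalso
      have h1 : g ⟨F.1.la, hmem F⟩ = 0 := Subtype.ext h
      have h2 := g.map_eq_zero_iff.1 h1
      exact hC.la_ne F F.2 (congrArg Subtype.val h2)
    · exact ⟨⟨F', hF'⟩, h⟩
  choose p hp using key
  have hinv : ∀ g g' : grp hC ≃ₗ[ZMod 2] grp hC, (∀ x, g' (g x) = x) → ∀ F, p g' (p g F) = F := by
    intro g g' hgg F
    apply Subtype.ext
    apply la_inj hC (p g' (p g F)).2 F.2
    rw [hp g' (p g F)]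
    have h1 : (⟨(p g F).1.la, hmem (p g F)⟩ : grp hC) = g ⟨F.1.la, hmem F⟩ := Subtype.ext (hp g F)
    rw [h1, hgg]
  let π : Equiv.Perm C := ⟨p f, p f.symm, hinv f f.symm (by simp), hinv f.symm f (by simp)⟩
  refine ⟨π, ?_, fun F h => hp f F⟩
  intro F F' G hne hG
  have h1 : π F ≠ π F' := fun h => hne (π.injective h)
  have h2 : (π F).1 ≠ (π F').1 := fun h => h1 (Subtype.ext h)
  have h3 := (hC.closed _ (π F).2 _ (π F').2 h2).2
  apply la_inj hC (π G).2 h3
  change (p f G).1.la = (p f F).1.la + (p f F').1.la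
  rw [hp, hp, hp, ← Submodule.coe_add, ← map_add]
  congr 2
  apply Subtype.ext
  change G.1.la = F.1.la + F'.1.la
  rw [hG]
  rfl

/-- induced permutations are given by `λ ↦ δ σ(λ)` -/
lemma induced_form (γ : (Fin 3 → K) ≃+ (Fin 3 → K)) (hγ : IsSemilinear γ) (π : Equiv.Perm C)
    (h : Induced γ C π) : ∃ (δ : K) (σ : K ≃+* K), ∀ F : C, (π F).1.la = δ * σ F.1.la := by
  obtain ⟨φ, ⟨σ, hσ⟩, -, hπ⟩ := h
  obtain ⟨τ, hτ⟩ := hγ
  set φ' : (Fin 3 → K) ≃+ (Fin 3 → K) := (γ.trans φ).trans γ.symm with hφ'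
  have hτ' : ∀ (a : K) (v : Fin 3 → K), γ.symm (a • v) = τ.symm a • γ.symm v := by
    intro a v
    rw [AddEquiv.symm_apply_eq, hτ]
    simp
  obtain ⟨δ, hδ⟩ := la_eq (card_K hC) φ' ((τ.trans σ).trans τ.symm) (by
    intro a v
    change γ.symm (φ (γ (a • v))) = τ.symm (σ (τ a)) • γ.symm (φ (γ v))
    rw [hτ, hσ, hτ'])
  refine ⟨δ, (τ.trans σ).trans τ.symm, fun F => hδ F.1 (π F).1 (hC.la_ne F F.2) fun v hv => ?_⟩
  have h1 := hπ F (γ v) (by simpa using hv)
  rw [AddEquiv.symm_apply_apply] at h1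
  exact h1

/-- **For every `h` and every Mathon 8-arc in `PG(2, 2^h)`, proper or not, some automorphism of the
Fano plane of its conics is not induced by a collineation stabilising the arc.** -/
theorem exists_not_induced (γ : (Fin 3 → K) ≃+ (Fin 3 → K)) (hγ : IsSemilinear γ) :
    ∃ π : Equiv.Perm C, IsFanoAut C π ∧ ¬ Induced γ C π := by
  by_contra hcon
  push Not at hcon
  let b : Module.Basis (Fin 3) (ZMod 2) (grp hC) :=
    Module.finBasisOfFinrankEq (ZMod 2) (grp hC) (finrank_grp hC)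
  -- transvections
  have trans : ∀ i j : Fin 3, i ≠ j → ∃ f : grp hC ≃ₗ[ZMod 2] grp hC,
      ∀ x, f x = x + b.coord i x • b j := by
    intro i j hij
    let t : grp hC →ₗ[ZMod 2] grp hC :=
      { toFun := fun x => x + b.coord i x • b j
        map_add' := fun x y => by rw [map_add, add_smul]; abel
        map_smul' := fun c x => by
          rw [map_smul, smul_add, smul_eq_mul, mul_smul]
          rfl }
    have ht : Function.Involutive t := by
      intro x
      change x + b.coord i x • b j + b.coord i (x + b.coord i x • b j) • b j = x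
      have h1 : b.coord i (b j) = 0 := by
        simp [hij.symm]
      rw [map_add, map_smul, h1, smul_zero, add_zero, add_assoc, ← add_smul]
      have h2 : b.coord i x + b.coord i x = 0 := by
        have : ∀ c : ZMod 2, c + c = 0 := by decide
        exact this _
      rw [h2, zero_smul, add_zero]
    exact ⟨LinearEquiv.ofInvolutive t ht, fun x => rfl⟩
  have real : ∀ f : grp hC ≃ₗ[ZMod 2] grp hC, ∃ (δ : K) (σ : K ≃+* K), ∀ x : grp hC,
      (f x : K) = δ * σ (x : K) := by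
    intro f
    obtain ⟨π, hπ, hf⟩ := exists_perm hC f
    obtain ⟨δ, σ, h⟩ := induced_form hC γ hγ π (hcon π hπ)
    refine ⟨δ, σ, fun x => ?_⟩
    rcases x.2 with h0 | ⟨F, hF, hx⟩
    · have : x = 0 := Subtype.ext h0
      rw [this]
      simp
    · have h1 := h ⟨F, hF⟩
      have h2 := hf ⟨F, hF⟩ (Or.inr ⟨F, hF, rfl⟩)
      rw [h2] at h1
      have h3 : (⟨F.la, Or.inr ⟨F, hF, rfl⟩⟩ : grp hC) = x := Subtype.ext hx
      change ((f ⟨F.la, Or.inr ⟨F, hF, rfl⟩⟩ : grp hC) : K) = δ * σ F.la at h1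
      rw [h3, hx] at h1
      exact h1
  obtain ⟨f, hf⟩ := trans 1 0 (by decide)
  obtain ⟨g, hg⟩ := trans 2 1 (by decide)
  obtain ⟨δ, σ, hσ⟩ := real f
  obtain ⟨ε, τ, hτ⟩ := real g
  have hb0 : ((b 0 : grp hC) : K) ≠ 0 := by
    intro h0
    exact b.ne_zero 0 (Subtype.ext h0)
  have f0 : f (b 0) = b 0 := by rw [hf]; simp
  have g0 : g (b 0) = b 0 := by rw [hg]; simp
  -- after normalising `b 0` to `1` the two maps are field automorphisms
  have nf : ∀ x : grp hC, σ ((x : K) / b 0) = (f x : K) / b 0 := by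
    intro x
    have h1 := hσ (b 0)
    rw [f0] at h1
    have hδ : δ ≠ 0 := by
      rintro rfl
      rw [zero_mul] at h1
      exact hb0 h1
    rw [map_div₀, hσ x]
    conv_rhs => rw [h1]
    rw [mul_div_mul_left _ _ hδ]
  have ng : ∀ x : grp hC, τ ((x : K) / b 0) = (g x : K) / b 0 := by
    intro x
    have h1 := hτ (b 0)
    rw [g0] at h1
    have hε : ε ≠ 0 := by
      rintro rfl
      rw [zero_mul] at h1
      exact hb0 h1
    rw [map_div₀, hτ x]
    conv_rhs => rw [h1]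
    rw [mul_div_mul_left _ _ hε]
  have h1 := aut_comm σ τ ((b 2 : grp hC) / b 0)
  rw [ng, nf, nf, ng, div_left_inj' hb0] at h1
  have h2 : f (g (b 2)) = g (f (b 2)) := Subtype.ext h1
  have e1 : g (b 2) = b 2 + b 1 := by rw [hg]; simp
  have e2 : f (b 2) = b 2 := by rw [hf]; simp
  have e3 : f (b 2 + b 1) = b 2 + b 1 + b 0 := by rw [hf]; simp
  rw [e1, e2, e3, e1] at h2
  have h3 : b 0 = 0 := by
    have := add_left_cancel (h2.trans (add_zero _).symm)
    exact this
  exact b.ne_zero 0 h3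

end Group

/-- **Answer to Q1: no.** For every `h` and every Mathon 8-arc in `PG(2, 2^h)` (the image under a
collineation `γ` of the union of a closed set `C` of seven conics and `F₀`), proper or not, the
induced group is not all of `GL₃(2)`: some automorphism of the Fano plane of the conics is not
induced by any collineation which stabilises the arc. -/
theorem result (h : ℕ) (K : Type) [Field K] [Finite K] [Algebra (ZMod 2) K]
    (_hK : Nat.card K = 2 ^ h) (C : Set (Conic K)) (hC : IsMathonSet C)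
    (γ : (Fin 3 → K) ≃+ (Fin 3 → K)) (hγ : IsSemilinear γ) :
    ∃ π : Equiv.Perm C, IsFanoAut C π ∧ ¬ Induced γ C π :=
  exists_not_induced hC γ hγ

end Pool.Agent.Results.MP_df3b73_co.NotAllOfGL32
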